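import Pool.Agent.Q12.MI2.Stm3

/-!
# Project MI2, job A1a: first coordinates on the group
-/

set_option autoImplicit false

namespace Pool.Agent.Q224.MI2

open Q12.MI2 Subgroup

universe w

theorem comm_of_sq {E : Type w} [Group E] (h : ∀ x : E, x * x = 1) (a b : E) : a * b = b * a := by
  have inv : ∀ x : E, x⁻¹ = x := fun x => inv_eq_of_mul_eq_one_left (h x)
  have h1 := mul_inv_rev a b
  rw [inv (a * b), inv a, inv b] at h1
  exact h1

/-- coordinates on a finite elementary abelian 2-group with a subgroup -/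
theorem ele2 (E : Type w) [Group E] [Finite E] (h : ∀ x : E, x * x = 1) (Z : Subgroup E) :
    ∃ (n₁ n₂ : ℕ) (e : E → (Fin n₁ ⊕ Fin n₂ → ZMod 2)), Function.Bijective e ∧
      (∀ x y, e (x * y) = e x + e y) ∧ ∀ x, x ∈ Z ↔ ∀ i, e x (Sum.inl i) = 0 := by
  classical
  letI : CommGroup E := { ‹Group E› with mul_comm := comm_of_sq h }
  letI : Module (ZMod 2) (Additive E) := AddCommGroup.zmodModule (n := 2) (by
    intro x
    rw [two_nsmul]
    exact h x)
  let Zs : Submodule (ZMod 2) (Additive E) := AddSubgroup.toZModSubmodule 2 (Subgroup.toAddSubgroup Z)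
  obtain ⟨C, hC⟩ := Submodule.exists_isCompl Zs
  haveI : Finite (Additive E) := ‹Finite E›
  let b₁ := Module.finBasis (ZMod 2) C
  let b₂ := Module.finBasis (ZMod 2) Zs
  let f : Additive E ≃ₗ[ZMod 2] (Fin (Module.finrank (ZMod 2) C) ⊕ Fin (Module.finrank (ZMod 2) Zs) → ZMod 2) :=
    (Submodule.prodEquivOfIsCompl C Zs hC.symm).symm ≪≫ₗ
      (LinearEquiv.prodCongr b₁.equivFun b₂.equivFun) ≪≫ₗ
      (LinearEquiv.sumArrowLequivProdArrow _ _ (ZMod 2) (ZMod 2)).symm
  refine ⟨Module.finrank (ZMod 2) C, Module.finrank (ZMod 2) Zs, fun x => f (Additive.ofMul x),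
    f.bijective.comp Additive.ofMul.bijective, ?_, ?_⟩
  · intro x y
    exact map_add f (Additive.ofMul x) (Additive.ofMul y)
  · intro x
    have h1 : (∀ i, f (Additive.ofMul x) (Sum.inl i) = 0) ↔
        b₁.equivFun ((Submodule.prodEquivOfIsCompl C Zs hC.symm).symm (Additive.ofMul x)).1 = 0 := by
      rw [funext_iff]
      rfl
    rw [h1, LinearEquiv.map_eq_zero_iff, Submodule.prodEquivOfIsCompl_symm_apply_fst_eq_zero]
    rfl

theorem ele (E : Type w) [Group E] [Finite E] (h : ∀ x : E, x * x = 1) :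
    ∃ (m : ℕ) (e : E → (Fin m → ZMod 2)), Function.Bijective e ∧
      (∀ x y, e (x * y) = e x + e y) := by
  obtain ⟨n₁, n₂, e, h1, h2, -⟩ := ele2 E h ⊥
  refine ⟨n₁ + n₂, fun x => e x ∘ finSumFinEquiv.symm, ?_, ?_⟩
  · have h3 : Function.Bijective (fun g : Fin n₁ ⊕ Fin n₂ → ZMod 2 => g ∘ finSumFinEquiv.symm) :=
      (Equiv.arrowCongr finSumFinEquiv (Equiv.refl (ZMod 2))).bijective
    exact h3.comp h1
  · intro x y
    beta_reduce
    rw [h2]
    rfl

theorem a1a : S_A1a.{w} := by
  classical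
  intro G _ _ hc h4
  let S : Subgroup G := Subgroup.closure (Set.range fun g : G => g * g)
  have hSc : S ≤ Subgroup.center G := by
    rw [Subgroup.closure_le]
    rintro _ ⟨g, rfl⟩
    rw [SetLike.mem_coe, Subgroup.mem_center_iff]
    intro x
    exact (hc g x).symm
  have hS2 : ∀ s ∈ S, s * s = 1 := by
    intro s hs
    induction hs using Subgroup.closure_induction with
    | mem x hx =>
      obtain ⟨g, rfl⟩ := hx
      exact h4 g
    | one => exact one_mul 1
    | mul x y hx hy ihx ihy =>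
      have h1 : y * x = x * y := Subgroup.mem_center_iff.1 (hSc hx) y
      calc x * y * (x * y) = x * (y * x) * y := by group
        _ = (x * x) * (y * y) := by rw [h1]; group
        _ = 1 := by rw [ihx, ihy, one_mul]
    | inv x hx ihx =>
      rw [← mul_inv_rev, ihx, inv_one]
  have hSn : S.Normal := by
    constructor
    intro n hn g
    have h1 : g * n = n * g := Subgroup.mem_center_iff.1 (hSc hn) g
    rw [h1, mul_inv_cancel_right]
    exact hn
  have hsqS : ∀ g : G, g * g ∈ S := fun g => Subgroup.subset_closure ⟨g, rfl⟩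
  have hE : ∀ x : G ⧸ S, x * x = 1 := by
    intro x
    obtain ⟨g, rfl⟩ := QuotientGroup.mk_surjective x
    rw [← QuotientGroup.mk_mul, QuotientGroup.eq_one_iff]
    exact hsqS g
  obtain ⟨n₁, n₂, e, he1, he2, he3⟩ := ele2 (G ⧸ S) hE ((Subgroup.center G).map (QuotientGroup.mk' S))
  obtain ⟨m, f, hf1, hf2⟩ := ele S (fun x => Subtype.ext (hS2 x.1 x.2))
  have e1 : e 1 = 0 := by
    have h := he2 1 1
    rw [one_mul] at h
    exact left_eq_add.1 h
  have f1 : f 1 = 0 := by
    have h := hf2 1 1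
    rw [one_mul] at h
    exact left_eq_add.1 h
  have hker : ∀ g : G, e (QuotientGroup.mk g) = 0 ↔ g ∈ S := by
    intro g
    rw [← e1, he1.1.eq_iff, QuotientGroup.eq_one_iff]
  let θ : G → Fin m → ZMod 2 := fun g => if h : g ∈ S then f ⟨g, h⟩ else 0
  have θS : ∀ (g : G) (h : g ∈ S), θ g = f ⟨g, h⟩ := fun g h => dif_pos h
  let P : Pre G (Fin n₁ ⊕ Fin n₂) (Fin m) :=
    { ξ := fun g => e (QuotientGroup.mk g)
      ξ_mul := fun g h => by
        rw [QuotientGroup.mk_mul, he2]
      ξ_surj := he1.2.comp QuotientGroup.mk_surjective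
      θ := θ
      θ_mul := by
        intro g h hg hh
        have hg' := (hker g).1 hg
        have hh' := (hker h).1 hh
        rw [θS g hg', θS h hh', θS _ (S.mul_mem hg' hh'), ← hf2]
        rfl
      θ_surj := by
        intro w
        obtain ⟨s, hs⟩ := hf1.2 w
        refine ⟨s.1, (hker _).2 s.2, ?_⟩
        rw [θS _ s.2]
        exact hs
      θ_inj := by
        intro g hg h0
        have hg' := (hker g).1 hg
        rw [θS g hg', ← f1] at h0
        exact congrArg Subtype.val (hf1.1 h0)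
      central := fun g hg => hSc ((hker g).1 hg) }
  refine ⟨n₁, n₂, m, P, ?_, ?_⟩
  · intro g
    rw [show (∀ i, P.ξ g (Sum.inl i) = 0) ↔ (QuotientGroup.mk g : G ⧸ S) ∈
      (Subgroup.center G).map (QuotientGroup.mk' S) from (he3 _).symm]
    constructor
    · intro hg
      exact ⟨g, hg, rfl⟩
    · rintro ⟨z, hz, hzg⟩
      have h1 : z⁻¹ * g ∈ S := QuotientGroup.eq.1 hzg
      have h2 := (Subgroup.center G).mul_mem hz (hSc h1)
      rwa [mul_inv_cancel_left] at h2
  · rw [eq_top_iff]
    rintro w -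
    obtain ⟨s, rfl⟩ := hf1.2 w
    have key : ∀ x ∈ S, θ x ∈ Submodule.span (ZMod 2) (Set.range fun g => P.θ (g * g)) := by
      intro x hx
      induction hx using Subgroup.closure_induction with
      | mem x hx =>
        obtain ⟨g, rfl⟩ := hx
        exact Submodule.subset_span ⟨g, rfl⟩
      | one =>
        rw [θS 1 S.one_mem, show (⟨1, S.one_mem⟩ : S) = 1 from rfl, f1]
        exact Submodule.zero_mem _
      | mul x y hx hy ihx ihy =>
        rw [θS _ (S.mul_mem hx hy), show (⟨x * y, S.mul_mem hx hy⟩ : S) = ⟨x, hx⟩ * ⟨y, hy⟩ from rfl,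
          hf2, ← θS x hx, ← θS y hy]
        exact Submodule.add_mem _ ihx ihy
      | inv x hx ihx =>
        rw [inv_eq_of_mul_eq_one_left (hS2 x hx)]
        exact ihx
    have h5 := key s.1 s.2
    rw [θS s.1 s.2] at h5
    exact h5

end Pool.Agent.Q224.MI2
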