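import Pool.Agent.Q224.MI2.A1b
import Pool.Agent.Q224.MI2.A1a

/-!
# Project MI2, job A1: coordinates exist
-/

set_option autoImplicit false

namespace Pool.Agent.Q224.MI2

open Q12.MI2 Subgroup

universe w

theorem a1 : S_A1a.{w} → S_A1b.{w} → S_A1.{w} := by
  classical
  intro A1a A1b G _ _ hc h4
  obtain ⟨n₁, n₂, m, P, hcen, hspan⟩ := A1a G hc h4
  obtain ⟨b, ψ, hψ, hψθ⟩ := A1b G (Fin n₁ ⊕ Fin n₂) (Fin m) P
  have hψ0 : ∀ g z, P.ξ z = 0 → ψ (g * z) = ψ g + P.θ z := by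
    intro g z hz
    rw [hψ, hz, bil_zero_right, add_zero, hψθ z hz]
  have hqd : ∀ g, qd b (P.ξ g) = P.θ (g * g) := by
    intro g
    have h1 := hψ g g
    rw [zm_self, zero_add, hψθ _ (xi_sq P g)] at h1
    exact h1.symm
  refine ⟨n₁, n₂, m, ⟨Coord.mk b P.ξ ψ P.ξ_mul hψ ?_ hcen ?_⟩⟩
  · constructor
    · intro g h hgh
      simp only [Prod.mk.injEq] at hgh
      obtain ⟨h1, h2⟩ := hgh
      have h3 : P.ξ (h⁻¹ * g) = 0 := by rw [P.ξ_mul, xi_inv, h1, zm_self]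
      have h5 : ψ g = ψ h + P.θ (h⁻¹ * g) := by
        rw [← hψ0 _ _ h3, mul_inv_cancel_left]
      rw [h2] at h5
      have h6 := P.θ_inj _ h3 (left_eq_add.1 h5)
      exact (inv_mul_eq_one.1 h6).symm
    · rintro ⟨x, y⟩
      obtain ⟨g, rfl⟩ := P.ξ_surj x
      obtain ⟨z, hz1, hz2⟩ := P.θ_surj (y - ψ g)
      refine ⟨g * z, ?_⟩
      beta_reduce
      rw [hψ0 _ _ hz1, hz2, P.ξ_mul, hz1, add_zero, add_sub_cancel]
  · rw [← hspan]
    congr 1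
    ext w
    constructor
    · rintro ⟨x, rfl⟩
      obtain ⟨g, rfl⟩ := P.ξ_surj x
      exact ⟨g, (hqd g).symm⟩
    · rintro ⟨g, rfl⟩
      exact ⟨P.ξ g, hqd g⟩

end Pool.Agent.Q224.MI2
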