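import Pool.Agent.Q224.MI2.Icr

/-!
# Project MI2, job A1b: the bilinear cocycle
-/

set_option autoImplicit false

namespace Pool.Agent.Q224.MI2

open Q12.MI2 Subgroup

universe w

section bil

variable {ι κ : Type} [Fintype ι] (b : ι → ι → κ → ℤ)

theorem bil_add_left (x x' y : ι → ZMod 2) : bil b (x + x') y = bil b x y + bil b x' y := by
  funext k
  simp only [bil, Pi.add_apply, add_mul, Finset.sum_add_distrib]

theorem bil_add_right (x y y' : ι → ZMod 2) : bil b x (y + y') = bil b x y + bil b x y' := by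
  funext k
  simp only [bil, Pi.add_apply, mul_add, add_mul, Finset.sum_add_distrib]

theorem bil_zero_left (y : ι → ZMod 2) : bil b 0 y = 0 := by
  funext k
  simp [bil]

theorem bil_zero_right (y : ι → ZMod 2) : bil b y 0 = 0 := by
  funext k
  simp [bil]

theorem bil_single [DecidableEq ι] (i j : ι) :
    bil b (Pi.single i (1 : ZMod 2)) (Pi.single j 1) = fun k => (b i j k : ZMod 2) := by
  funext k
  unfold bil
  rw [Finset.sum_eq_single i]
  · rw [Finset.sum_eq_single j]
    · simp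
    · intro l _ hl
      simp [Pi.single_eq_of_ne hl]
    · intro h
      exact absurd (Finset.mem_univ j) h
  · intro l _ hl
    simp [Pi.single_eq_of_ne hl]
  · intro h
    exact absurd (Finset.mem_univ i) h

end bil

theorem add_ext {ι κ : Type} [Fintype ι] [DecidableEq ι] (f : (ι → ZMod 2) → (κ → ZMod 2))
    (hf : ∀ x y, f (x + y) = f x + f y) (h : ∀ i, f (Pi.single i 1) = 0) (x : ι → ZMod 2) :
    f x = 0 := by
  let F : (ι → ZMod 2) →ₗ[ZMod 2] (κ → ZMod 2) := (AddMonoidHom.mk' f hf).toZModLinearMap 2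
  have h0 : F = 0 := (Pi.basisFun (ZMod 2) ι).ext (fun i => by
    rw [Pi.basisFun_apply]
    exact h i)
  exact congrArg (fun L : (ι → ZMod 2) →ₗ[ZMod 2] (κ → ZMod 2) => L x) h0

/-- quadratic maps over the field with two elements are given by a tensor -/
theorem quad_tensor {ι κ : Type} [Fintype ι] (q : (ι → ZMod 2) → (κ → ZMod 2))
    (h0 : q 0 = 0)
    (hB : ∀ x x' y, q (x + x' + y) + q (x + x') + q y
      = (q (x + y) + q x + q y) + (q (x' + y) + q x' + q y)) :
    ∃ b : ι → ι → κ → ℤ, ∀ x, qd b x = q x := by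
  classical
  let e := Fintype.equivFin ι
  let B : (ι → ZMod 2) → (ι → ZMod 2) → (κ → ZMod 2) := fun x y => q (x + y) + q x + q y
  have Bsymm : ∀ x y, B x y = B y x := by
    intro x y
    show q (x + y) + q x + q y = q (y + x) + q y + q x
    rw [add_comm x y]
    abel
  have Bl : ∀ x x' y, B (x + x') y = B x y + B x' y := hB
  have Br : ∀ x y y', B x (y + y') = B x y + B x y' := by
    intro x y y'
    rw [Bsymm x, Bl, Bsymm x y, Bsymm x y']
  have Bs : ∀ x, B x x = 0 := by
    intro x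
    show q (x + x) + q x + q x = 0
    rw [zm_self x, h0, zero_add, zm_self]
  let b : ι → ι → κ → ℤ := fun i j k =>
    if i = j then ((q (Pi.single i 1) k).val : ℤ) else
      if e i < e j then ((B (Pi.single i 1) (Pi.single j 1) k).val : ℤ) else 0
  have cast_val : ∀ z : ZMod 2, (((z.val : ℕ) : ℤ) : ZMod 2) = z := by
    intro z
    rw [Int.cast_natCast, ZMod.natCast_val, ZMod.cast_id]
  have bii : ∀ i, (fun k => (b i i k : ZMod 2)) = q (Pi.single i 1) := by
    intro i
    funext k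
    simp only [b, if_true]
    exact cast_val _
  have bij : ∀ i j, e i < e j → (fun k => (b i j k : ZMod 2)) = B (Pi.single i 1) (Pi.single j 1) := by
    intro i j hij
    funext k
    have hne : i ≠ j := by
      rintro rfl
      exact lt_irrefl _ hij
    simp only [b, if_neg hne, if_pos hij]
    exact cast_val _
  have bji : ∀ i j, e i < e j → (fun k => (b j i k : ZMod 2)) = 0 := by
    intro i j hij
    funext k
    have hne : j ≠ i := by
      rintro rfl
      exact lt_irrefl _ hij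
    simp only [b, if_neg hne, if_neg (not_lt_of_gt hij)]
    exact Int.cast_zero
  have polar : ∀ x y, bil b x y + bil b y x + B x y = 0 := by
    intro x y
    refine add_ext (fun x => bil b x y + bil b y x + B x y) ?_ ?_ x
    · intro x x'
      beta_reduce
      rw [bil_add_left, bil_add_right, Bl]
      abel
    · intro i
      beta_reduce
      refine add_ext (fun y => bil b (Pi.single i 1) y + bil b y (Pi.single i 1)
        + B (Pi.single i 1) y) ?_ ?_ y
      · intro y y'
        beta_reduce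
        rw [bil_add_left, bil_add_right, Br]
        abel
      · intro j
        beta_reduce
        rw [bil_single, bil_single]
        rcases lt_trichotomy (e i) (e j) with h | h | h
        · rw [bij i j h, bji i j h, add_zero, zm_self]
        · have hij : i = j := e.injective h
          subst hij
          rw [Bs, add_zero, zm_self]
        · rw [bij j i h, bji j i h, zero_add, Bsymm, zm_self]
  refine ⟨b, ?_⟩
  have key : ∀ x, qd b x + q x = 0 := by
    intro x
    refine add_ext (fun x => qd b x + q x) ?_ ?_ x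
    · intro x y
      beta_reduce
      have h1 : bil b x y + bil b y x + (q (x + y) + q x + q y) = 0 := polar x y
      unfold qd
      rw [bil_add_left, bil_add_right, bil_add_right]
      have h2 := zm_self (q x)
      have h3 := zm_self (q y)
      have h4 : bil b x x + bil b x y + (bil b y x + bil b y y) + q (x + y)
          = (bil b x x + q x + (bil b y y + q y)) +
            (bil b x y + bil b y x + (q (x + y) + q x + q y)) := by
        have h5 : (bil b x x + q x + (bil b y y + q y)) +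
            (bil b x y + bil b y x + (q (x + y) + q x + q y))
            = bil b x x + bil b x y + (bil b y x + bil b y y) + q (x + y)
              + (q x + q x) + (q y + q y) := by abel
        rw [h5, h2, h3, add_zero, add_zero]
      rw [h4, h1, add_zero]
    · intro i
      beta_reduce
      unfold qd
      rw [bil_single, bii, zm_self]
  intro x
  have h1 := eq_neg_of_add_eq_zero_left (key x)
  rw [h1, zm_neg]

/-- the model group -/
def Mdl {ι κ : Type} (_b : ι → ι → κ → ℤ) : Type := (ι → ZMod 2) × (κ → ZMod 2)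

section model

variable {ι κ : Type} [Fintype ι] (b : ι → ι → κ → ℤ)

instance : Mul (Mdl b) := ⟨fun x y => (x.1 + y.1, x.2 + y.2 + bil b x.1 y.1)⟩
instance : One (Mdl b) := ⟨(0, 0)⟩
instance : Inv (Mdl b) := ⟨fun x => (x.1, x.2 + bil b x.1 x.1)⟩

theorem mdl_mul (x y : Mdl b) : x * y = (x.1 + y.1, x.2 + y.2 + bil b x.1 y.1) := rfl
theorem mdl_one : (1 : Mdl b) = (0, 0) := rfl
theorem mdl_inv (x : Mdl b) : x⁻¹ = (x.1, x.2 + bil b x.1 x.1) := rfl

instance : Group (Mdl b) :=
  Group.ofLeftAxioms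
    (by
      intro x y z
      rw [mdl_mul, mdl_mul, mdl_mul, mdl_mul]
      refine Prod.ext ?_ ?_
      · show x.1 + y.1 + z.1 = x.1 + (y.1 + z.1)
        rw [add_assoc]
      · show x.2 + y.2 + bil b x.1 y.1 + z.2 + bil b (x.1 + y.1) z.1
          = x.2 + (y.2 + z.2 + bil b y.1 z.1) + bil b x.1 (y.1 + z.1)
        rw [bil_add_left, bil_add_right]
        abel)
    (by
      intro x
      rw [mdl_mul]
      refine Prod.ext ?_ ?_
      · show 0 + x.1 = x.1
        rw [zero_add]
      · show 0 + x.2 + bil b 0 x.1 = x.2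
        rw [bil_zero_left, zero_add, add_zero])
    (by
      intro x
      rw [mdl_mul, mdl_inv, mdl_one]
      refine Prod.ext ?_ ?_
      · show x.1 + x.1 = 0
        rw [zm_self]
      · show x.2 + bil b x.1 x.1 + x.2 + bil b x.1 x.1 = 0
        have h : x.2 + bil b x.1 x.1 + x.2 + bil b x.1 x.1
            = (x.2 + x.2) + (bil b x.1 x.1 + bil b x.1 x.1) := by abel
        rw [h, zm_self, zm_self, add_zero])

/-- the coordinates of the model group -/
def mdlPre : Pre (Mdl b) ι κ where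
  ξ x := x.1
  ξ_mul _ _ := rfl
  ξ_surj x := ⟨(x, 0), rfl⟩
  θ x := x.2
  θ_mul g h hg hh := by
    show g.2 + h.2 + bil b g.1 h.1 = g.2 + h.2
    rw [hg, bil_zero_left, add_zero]
  θ_surj w := ⟨(0, w), rfl, rfl⟩
  θ_inj g h1 h2 := Prod.ext h1 h2
  central g hg := by
    rw [Subgroup.mem_center_iff]
    intro h
    refine Prod.ext ?_ ?_
    · show h.1 + g.1 = g.1 + h.1
      rw [add_comm]
    · show h.2 + g.2 + bil b h.1 g.1 = g.2 + h.2 + bil b g.1 h.1
      rw [hg, bil_zero_left, bil_zero_right, add_comm h.2]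

end model

section polar

variable {G : Type w} [Group G] {ι κ : Type} (P : Pre G ι κ)

theorem xi_sq (g : G) : P.ξ (g * g) = 0 := by rw [P.ξ_mul, zm_self]

theorem cen {g : G} (hg : P.ξ g = 0) (h : G) : h * g = g * h :=
  Subgroup.mem_center_iff.1 (P.central g hg) h

theorem th_sq_congr {g h : G} (e : P.ξ g = P.ξ h) : P.θ (g * g) = P.θ (h * h) := by
  have h1 : P.ξ (h⁻¹ * g) = 0 := by rw [P.ξ_mul, xi_inv, e, zm_self]
  have h2 : g * g = (h * h) * ((h⁻¹ * g) * (h⁻¹ * g)) := by
    have h3 : (h * h) * ((h⁻¹ * g) * (h⁻¹ * g)) = h * (h * (h⁻¹ * g)) * (h⁻¹ * g) := by group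
    rw [h3, cen P h1 h]
    group
  rw [h2, P.θ_mul _ _ (xi_sq P h) (xi_sq P _), P.θ_mul _ _ h1 h1, zm_self, add_zero]

theorem xi_k (g h : G) : P.ξ (h⁻¹ * g⁻¹ * h * g) = 0 := by
  rw [P.ξ_mul, P.ξ_mul, P.ξ_mul, xi_inv, xi_inv]
  have h1 : P.ξ h + P.ξ g + P.ξ h + P.ξ g = (P.ξ h + P.ξ h) + (P.ξ g + P.ξ g) := by abel
  rw [h1, zm_self, zm_self, add_zero]

theorem th_sq_mul (g h : G) : P.θ ((g * h) * (g * h)) = P.θ (g * g) + P.θ (h * h)
    + P.θ (h⁻¹ * g⁻¹ * h * g) := by
  have hk := xi_k P g h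
  have h1 : (g * h) * (g * h) = (g * g) * (h * h) * (h⁻¹ * g⁻¹ * h * g) := by
    have h2 : (g * g) * (h * h) * (h⁻¹ * g⁻¹ * h * g)
        = g * g * h * (h * (h⁻¹ * g⁻¹ * h * g)) := by group
    rw [h2, cen P hk h]
    group
  rw [h1, P.θ_mul _ _ (by rw [P.ξ_mul, xi_sq, xi_sq, add_zero]) hk,
    P.θ_mul _ _ (xi_sq P g) (xi_sq P h)]

theorem th_k_mul (g g' h : G) : P.θ (h⁻¹ * (g * g')⁻¹ * h * (g * g'))
    = P.θ (h⁻¹ * g⁻¹ * h * g) + P.θ (h⁻¹ * g'⁻¹ * h * g') := by
  have hk := xi_k P g h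
  have h1 : h⁻¹ * (g * g')⁻¹ * h * (g * g')
      = (h⁻¹ * g⁻¹ * h * g) * (h⁻¹ * g'⁻¹ * h * g') := by
    have h2 : h⁻¹ * (g * g')⁻¹ * h * (g * g')
        = h⁻¹ * g'⁻¹ * h * ((h⁻¹ * g⁻¹ * h * g) * g') := by group
    rw [h2, ← cen P hk g', ← mul_assoc, cen P hk]
  rw [h1, P.θ_mul _ _ hk (xi_k P g' h)]

end polar

theorem a1b : S_EXT.{w, 0} → S_A1b.{w} := by
  classical
  intro EXT G _ ι κ _ _ P
  choose s hs using P.ξ_surj
  let q : (ι → ZMod 2) → (κ → ZMod 2) := fun x => P.θ (s x * s x)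
  have hq : ∀ g, q (P.ξ g) = P.θ (g * g) := fun g => th_sq_congr P (hs _)
  have hB : ∀ g h, q (P.ξ g + P.ξ h) + q (P.ξ g) + q (P.ξ h) = P.θ (h⁻¹ * g⁻¹ * h * g) := by
    intro g h
    rw [← P.ξ_mul, hq, hq, hq, th_sq_mul]
    have h1 : P.θ (g * g) + P.θ (h * h) + P.θ (h⁻¹ * g⁻¹ * h * g) + P.θ (g * g) + P.θ (h * h)
        = (P.θ (g * g) + P.θ (g * g)) + (P.θ (h * h) + P.θ (h * h))
          + P.θ (h⁻¹ * g⁻¹ * h * g) := by abel
    rw [h1, zm_self, zm_self, add_zero, zero_add]
  obtain ⟨b, hb⟩ := quad_tensor q (by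
      have h1 := hq 1
      rw [xi_one, one_mul, th_one] at h1
      exact h1) (by
      intro x x' y
      obtain ⟨g, rfl⟩ := P.ξ_surj x
      obtain ⟨g', rfl⟩ := P.ξ_surj x'
      obtain ⟨h, rfl⟩ := P.ξ_surj y
      rw [hB g h, hB g' h, ← th_k_mul, ← hB, P.ξ_mul])
  obtain ⟨e, he1, he2⟩ := EXT G (Mdl b) ι κ P (mdlPre b) (by
    intro g h hgh
    show P.θ (g * g) = h.2 + h.2 + bil b h.1 h.1
    rw [zm_self, zero_add, ← hq g, ← hb, hgh]
    rfl)
  refine ⟨b, fun g => (e g).2, ?_, fun g hg => he2 g hg⟩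
  intro g h
  have h1 : ∀ g, (e g).1 = P.ξ g := he1
  rw [← h1 g, ← h1 h]
  show (e (g * h)).2 = _
  rw [map_mul]
  rfl

end Pool.Agent.Q224.MI2
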