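import Pool.Agent.Q12.MI2.Stm3
import Pool.Agent.Q21.MI.Dim

/-!
# Project MI2, job A6: the prime two and the third dimension subgroup
-/

set_option autoImplicit false

namespace Pool.Agent.Q224.MI2

open Q12.MI2 Q21.MI

universe u w

theorem a6 : S_A6.{u, w} := by
  intro F _ _ G _ hD
  have : CharP (MonoidAlgebra F G) 2 :=
    charP_of_injective_algebraMap (algebraMap F (MonoidAlgebra F G)).injective 2
  haveI : Fact (Nat.Prime 2) := ⟨Nat.prime_two⟩
  have hsq : ∀ g : G, MonoidAlgebra.single (g ^ 2) (1 : F) - 1 = (MonoidAlgebra.single g (1 : F) - 1) ^ 2 := by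
    intro g
    rw [sub_pow_char_of_commute 2 (Commute.one_right _), one_pow, single_pow']
  constructor
  · intro g h
    have h1 : MonoidAlgebra.single (g ^ 2) (1 : F) - 1 ∈ (Delta F G) ^ 2 := by
      rw [hsq]
      exact Submodule.pow_mem_pow _ (single_sub_one_mem g) 2
    have h3 := comm_mem (h := h) h1 (by
      intro x hx y hy
      have e : (Delta F G) ^ (2 + 1) = (Delta F G) * (Delta F G) ^ 2 := by
        rw [pow_succ' _ 2]
      rw [e]
      exact Submodule.mul_mem_mul hy hx)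
    have h4 : (g ^ 2) * h * (g ^ 2)⁻¹ * h⁻¹ ∈ dimSubgroup F G 3 := h3
    rw [hD] at h4
    have h5 : (g ^ 2) * h * (g ^ 2)⁻¹ * h⁻¹ = 1 := h4
    rw [mul_inv_eq_one, mul_inv_eq_iff_eq_mul, _root_.sq] at h5
    exact h5
  · intro g
    have e : g * g * (g * g) = (g ^ 2) ^ 2 := by
      rw [_root_.sq, _root_.sq]
    rw [e]
    have h1 : MonoidAlgebra.single ((g ^ 2) ^ 2) (1 : F) - 1
        = (MonoidAlgebra.single g (1 : F) - 1) ^ 4 := by
      rw [hsq, hsq, ← pow_mul]
    have h2 : (g ^ 2) ^ 2 ∈ dimSubgroup F G 3 := by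
      change MonoidAlgebra.single ((g ^ 2) ^ 2) (1 : F) - 1 ∈ (Delta F G) ^ 3
      rw [h1]
      exact Delta_pow_le (by norm_num) (by norm_num) (Submodule.pow_mem_pow _ (single_sub_one_mem g) 4)
    rw [hD] at h2
    exact h2

end Pool.Agent.Q224.MI2
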