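import Pool.Agent.Q12.MI2.Stm3
import Pool.Agent.Q21.MI.Grp

/-!
# Project MI2, jobs ICR and EXT: isomorphisms from correspondences
-/

set_option autoImplicit false

namespace Pool.Agent.Q224.MI2

open Q12.MI2 Subgroup

universe w w'

theorem icr : S_ICR.{w, w'} := by
  classical
  intro G H _ _ _ _ Γ N hN hsq hN1 hN2 s1 s2 hcard
  have hcomm : ∀ x ∈ Γ, ∀ y ∈ Γ, x * y * x⁻¹ * y⁻¹ ∈ N := by
    intro x hx y hy
    have e : x * y * x⁻¹ * y⁻¹ = (x * x) * ((x⁻¹ * y) * (x⁻¹ * y)) * (y * y)⁻¹ := by group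
    rw [e]
    exact N.mul_mem (N.mul_mem (hsq x hx) (hsq _ (Γ.mul_mem (Γ.inv_mem hx) hy)))
      (N.inv_mem (hsq y hy))
  let P : Subgroup (G × H) → Prop := fun Δ => N ≤ Δ ∧ Δ ≤ Γ ∧ (∀ g : G, (g, (1 : H)) ∈ Δ → g = 1) ∧
    (∀ h : H, ((1 : G), h) ∈ Δ → h = 1)
  obtain ⟨Δ, ⟨hNΔ, hΔΓ, hΔ1, hΔ2⟩, hmax⟩ :=
    (Set.toFinite {Δ | P Δ}).exists_maximal ⟨N, le_rfl, hN, hN1, hN2⟩
  have inj2 : Function.Injective (fun x : Δ => x.1.2) := by
    intro x y hxy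
    beta_reduce at hxy
    have h1 : (x.1 * y.1⁻¹) ∈ Δ := Δ.mul_mem x.2 (Δ.inv_mem y.2)
    have h2 : x.1 * y.1⁻¹ = (x.1.1 * y.1.1⁻¹, 1) := by
      ext
      · rfl
      · simp only [Prod.snd_mul, Prod.snd_inv]; rw [hxy]; simp
    rw [h2] at h1
    have h3 := hΔ1 _ h1
    rw [mul_inv_eq_one] at h3
    exact Subtype.ext (Prod.ext h3 hxy)
  have inj1 : Function.Injective (fun x : Δ => x.1.1) := by
    intro x y hxy
    beta_reduce at hxy
    have h1 : (x.1 * y.1⁻¹) ∈ Δ := Δ.mul_mem x.2 (Δ.inv_mem y.2)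
    have h2 : x.1 * y.1⁻¹ = (1, x.1.2 * y.1.2⁻¹) := by
      ext
      · simp only [Prod.fst_mul, Prod.fst_inv]; rw [hxy]; simp
      · rfl
    rw [h2] at h1
    have h3 := hΔ2 _ h1
    rw [mul_inv_eq_one] at h3
    exact Subtype.ext (Prod.ext hxy h3)
  have hord : Nat.card Δ = Nat.card H := by
    by_contra hne
    have hlt : Nat.card Δ < Nat.card H :=
      lt_of_le_of_ne (Nat.card_le_card_of_injective _ inj2) hne
    have ns2 : ¬ Function.Surjective (fun x : Δ => x.1.2) := by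
      intro hs
      exact absurd (Nat.card_le_card_of_surjective _ hs) (by omega)
    have ns1 : ¬ Function.Surjective (fun x : Δ => x.1.1) := by
      intro hs
      exact absurd (Nat.card_le_card_of_surjective _ hs) (by omega)
    let S1 : Subgroup (G × H) := Γ ⊓ (Δ.map (MonoidHom.snd G H)).comap (MonoidHom.snd G H)
    let S2 : Subgroup (G × H) := Γ ⊓ (Δ.map (MonoidHom.fst G H)).comap (MonoidHom.fst G H)
    have mem1 : ∀ x : G × H, x ∈ S1 ↔ x ∈ Γ ∧ ∃ δ ∈ Δ, δ.2 = x.2 := by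
      intro x; simp only [S1, Subgroup.mem_inf, Subgroup.mem_comap, Subgroup.mem_map]; rfl
    have mem2 : ∀ x : G × H, x ∈ S2 ↔ x ∈ Γ ∧ ∃ δ ∈ Δ, δ.1 = x.1 := by
      intro x; simp only [S2, Subgroup.mem_inf, Subgroup.mem_comap, Subgroup.mem_map]; rfl
    obtain ⟨a, haΓ, ha⟩ : ∃ a ∈ Γ, a ∉ S1 := by
      by_contra hcon
      push Not at hcon
      apply ns2
      intro h
      obtain ⟨g, hg⟩ := s2 h
      obtain ⟨_, δ, hδ, hδe⟩ := (mem1 _).1 (hcon _ hg)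
      exact ⟨⟨δ, hδ⟩, hδe⟩
    obtain ⟨b, hbΓ, hb⟩ : ∃ b ∈ Γ, b ∉ S2 := by
      by_contra hcon
      push Not at hcon
      apply ns1
      intro g
      obtain ⟨h, hh⟩ := s1 g
      obtain ⟨_, δ, hδ, hδe⟩ := (mem2 _).1 (hcon _ hh)
      exact ⟨⟨δ, hδ⟩, hδe⟩
    obtain ⟨v, hvΓ, hv1, hv2⟩ : ∃ v ∈ Γ, v ∉ S1 ∧ v ∉ S2 := by
      by_cases ha2 : a ∈ S2
      · by_cases hb1 : b ∈ S1
        · refine ⟨a * b, Γ.mul_mem haΓ hbΓ, fun h => ha ?_, fun h => hb ?_⟩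
          · have := S1.mul_mem h (S1.inv_mem hb1); simpa using this
          · have := S2.mul_mem (S2.inv_mem ha2) h; simpa using this
        · exact ⟨b, hbΓ, hb1, hb⟩
      · exact ⟨a, haΓ, ha, ha2⟩
    have hΔS1 : Δ ≤ S1 := fun x hx => (mem1 x).2 ⟨hΔΓ hx, x, hx, rfl⟩
    have hΔS2 : Δ ≤ S2 := fun x hx => (mem2 x).2 ⟨hΔΓ hx, x, hx, rfl⟩
    -- powers
    have hpow : ∀ (S : Subgroup (G × H)), Δ ≤ S → v ∉ S → ∀ i : ℤ, v ^ i ∈ S → v ^ i ∈ Δ := by
      intro S hS hvS i hi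
      have hev : ∀ j : ℤ, v ^ (2 * j) ∈ Δ := by
        intro j
        rw [zpow_mul]
        refine Δ.zpow_mem (hNΔ ?_) j
        have : v ^ (2 : ℤ) = v * v := zpow_two v
        rw [this]
        exact hsq v hvΓ
      rcases Int.even_or_odd' i with ⟨j, rfl | rfl⟩
      · exact hev j
      · exfalso
        apply hvS
        have h1 := S.mul_mem (S.inv_mem (hS (hev j))) hi
        have h2 : (v ^ (2 * j))⁻¹ * v ^ (2 * j + 1) = v := by
          rw [zpow_add, zpow_one, inv_mul_cancel_left]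
        rwa [h2] at h1
    let Δ' := Q21.MI.extBy Γ N Δ hΔΓ hNΔ hcomm v hvΓ
    have hle : Δ ≤ Δ' := fun x hx => ⟨x, hx, 0, by simp⟩
    have hP : P Δ' := by
      refine ⟨hNΔ.trans hle, ?_, ?_, ?_⟩
      · rintro x ⟨δ, hδ, i, rfl⟩
        exact Γ.mul_mem (hΔΓ hδ) (Γ.zpow_mem hvΓ i)
      · rintro g ⟨δ, hδ, i, hi⟩
        have h1 : v ^ i ∈ S1 := by
          rw [mem1]
          refine ⟨Γ.zpow_mem hvΓ i, δ⁻¹, Δ.inv_mem hδ, ?_⟩
          have := congrArg Prod.snd hi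
          simp only [Prod.snd_mul] at this
          rw [Prod.snd_inv, inv_eq_iff_mul_eq_one]
          exact this.symm
        refine hΔ1 g ?_
        rw [hi]
        exact Δ.mul_mem hδ (hpow S1 hΔS1 hv1 i h1)
      · rintro h ⟨δ, hδ, i, hi⟩
        have h1 : v ^ i ∈ S2 := by
          rw [mem2]
          refine ⟨Γ.zpow_mem hvΓ i, δ⁻¹, Δ.inv_mem hδ, ?_⟩
          have := congrArg Prod.fst hi
          simp only [Prod.fst_mul] at this
          rw [Prod.fst_inv, inv_eq_iff_mul_eq_one]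
          exact this.symm
        refine hΔ2 h ?_
        rw [hi]
        exact Δ.mul_mem hδ (hpow S2 hΔS2 hv2 i h1)
    have h2 := hmax hP hle
    have h3 : v ∈ Δ := h2 ⟨1, Δ.one_mem, 1, by simp⟩
    exact hv1 ((mem1 v).2 ⟨hvΓ, v, h3, rfl⟩)
  have bij2 : Function.Bijective ((MonoidHom.snd G H).comp Δ.subtype) := by
    rw [Nat.bijective_iff_injective_and_card]
    exact ⟨inj2, hord⟩
  have bij1 : Function.Bijective ((MonoidHom.fst G H).comp Δ.subtype) := by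
    rw [Nat.bijective_iff_injective_and_card]
    exact ⟨inj1, hord.trans hcard.symm⟩
  have hval : ∀ x ∈ Δ, ((MulEquiv.ofBijective _ bij1).symm.trans (MulEquiv.ofBijective _ bij2)) x.1
      = x.2 := by
    intro x hx
    have h1 : (MulEquiv.ofBijective _ bij1) ⟨x, hx⟩ = x.1 := rfl
    have h2 : (MulEquiv.ofBijective _ bij1).symm x.1 = ⟨x, hx⟩ := by
      rw [MulEquiv.symm_apply_eq]
      exact h1.symm
    rw [MulEquiv.trans_apply, h2]
    rfl
  refine ⟨(MulEquiv.ofBijective _ bij1).symm.trans (MulEquiv.ofBijective _ bij2), ?_, ?_⟩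
  · intro g
    obtain ⟨x, hx⟩ := bij1.2 g
    have h1 : x.1.1 = g := hx
    have h2 := hval x.1 x.2
    rw [h1] at h2
    rw [h2, ← h1]
    exact hΔΓ x.2
  · intro x hx
    exact hval x (hNΔ hx)

section pre

variable {G : Type w} [Group G] {ι κ : Type} (P : Pre G ι κ)

theorem xi_one : P.ξ 1 = 0 := by
  have h := P.ξ_mul 1 1
  rw [one_mul] at h
  exact left_eq_add.1 h

theorem zm_self {ι : Type} (x : ι → ZMod 2) : x + x = 0 := by
  funext i
  exact CharTwo.add_self_eq_zero (x i)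

theorem zm_neg {ι : Type} (x : ι → ZMod 2) : -x = x := by
  funext i
  exact CharTwo.neg_eq (x i)

theorem xi_inv (g : G) : P.ξ g⁻¹ = P.ξ g := by
  have h := P.ξ_mul g g⁻¹
  rw [mul_inv_cancel, xi_one] at h
  have h2 := eq_neg_of_add_eq_zero_right h.symm
  rw [h2, zm_neg]

theorem th_one : P.θ 1 = 0 := by
  have h := P.θ_mul 1 1 (xi_one P) (xi_one P)
  rw [one_mul] at h
  exact left_eq_add.1 h

theorem th_inv {g : G} (hg : P.ξ g = 0) : P.θ g⁻¹ = P.θ g := by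
  have h := P.θ_mul g g⁻¹ hg (by rw [xi_inv, hg])
  rw [mul_inv_cancel, th_one] at h
  have h2 := eq_neg_of_add_eq_zero_right h.symm
  rw [h2, zm_neg]

theorem th_injOn {g h : G} (hg : P.ξ g = 0) (hh : P.ξ h = 0) (e : P.θ g = P.θ h) : g = h := by
  have h1 : P.ξ (g * h⁻¹) = 0 := by rw [P.ξ_mul, xi_inv, hg, hh, add_zero]
  have h2 : P.θ (g * h⁻¹) = 0 := by
    rw [P.θ_mul _ _ hg (by rw [xi_inv, hh]), th_inv P hh, e, zm_self]
  exact mul_inv_eq_one.1 (P.θ_inj _ h1 h2)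

include P in
/-- the coordinates are a bijection -/
theorem pre_bij : ∃ e : G → (ι → ZMod 2) × (κ → ZMod 2), Function.Bijective e := by
  classical
  choose s hs using P.ξ_surj
  refine ⟨fun g => (P.ξ g, P.θ ((s (P.ξ g))⁻¹ * g)), ?_, ?_⟩
  · intro g h hgh
    simp only [Prod.mk.injEq] at hgh
    obtain ⟨h1, h2⟩ := hgh
    rw [h1] at h2
    have k1 : P.ξ ((s (P.ξ h))⁻¹ * g) = 0 := by rw [P.ξ_mul, xi_inv, hs, h1, zm_self]
    have k2 : P.ξ ((s (P.ξ h))⁻¹ * h) = 0 := by rw [P.ξ_mul, xi_inv, hs, zm_self]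
    exact mul_left_cancel (th_injOn P k1 k2 h2)
  · rintro ⟨x, y⟩
    obtain ⟨g, hg1, hg2⟩ := P.θ_surj y
    refine ⟨s x * g, ?_⟩
    have k : P.ξ (s x * g) = x := by rw [P.ξ_mul, hs, hg1, add_zero]
    simp only [k, inv_mul_cancel_left, hg2]

end pre

theorem ext : S_ICR.{w, w'} → S_EXT.{w, w'} := by
  intro ICR G H _ _ ι κ _ _ P P' hθ
  obtain ⟨e1, he1⟩ := pre_bij P
  obtain ⟨e2, he2⟩ := pre_bij P'
  have hfG : Finite G := Finite.of_injective e1 he1.1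
  have hfH : Finite H := Finite.of_injective e2 he2.1
  have hcard : Nat.card G = Nat.card H := by
    rw [Nat.card_congr (Equiv.ofBijective e1 he1), Nat.card_congr (Equiv.ofBijective e2 he2)]
  let Γ : Subgroup (G × H) :=
    { carrier := {x | P.ξ x.1 = P'.ξ x.2}
      one_mem' := by
        show P.ξ 1 = P'.ξ 1
        rw [xi_one, xi_one]
      mul_mem' := by
        intro a b ha hb
        show P.ξ (a.1 * b.1) = P'.ξ (a.2 * b.2)
        rw [P.ξ_mul, P'.ξ_mul, show P.ξ a.1 = P'.ξ a.2 from ha, show P.ξ b.1 = P'.ξ b.2 from hb]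
      inv_mem' := by
        intro a ha
        show P.ξ a.1⁻¹ = P'.ξ a.2⁻¹
        rw [xi_inv, xi_inv]
        exact ha }
  let N : Subgroup (G × H) :=
    { carrier := {x | P.ξ x.1 = 0 ∧ P'.ξ x.2 = 0 ∧ P.θ x.1 = P'.θ x.2}
      one_mem' := ⟨xi_one P, xi_one P', by
        show P.θ 1 = P'.θ 1
        rw [th_one, th_one]⟩
      mul_mem' := by
        rintro a b ⟨ha1, ha2, ha3⟩ ⟨hb1, hb2, hb3⟩
        refine ⟨?_, ?_, ?_⟩
        · show P.ξ (a.1 * b.1) = 0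
          rw [P.ξ_mul, ha1, hb1, add_zero]
        · show P'.ξ (a.2 * b.2) = 0
          rw [P'.ξ_mul, ha2, hb2, add_zero]
        · show P.θ (a.1 * b.1) = P'.θ (a.2 * b.2)
          rw [P.θ_mul _ _ ha1 hb1, P'.θ_mul _ _ ha2 hb2, ha3, hb3]
      inv_mem' := by
        rintro a ⟨ha1, ha2, ha3⟩
        refine ⟨?_, ?_, ?_⟩
        · show P.ξ a.1⁻¹ = 0
          rw [xi_inv, ha1]
        · show P'.ξ a.2⁻¹ = 0
          rw [xi_inv, ha2]
        · show P.θ a.1⁻¹ = P'.θ a.2⁻¹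
          rw [th_inv P ha1, th_inv P' ha2, ha3] }
  obtain ⟨e, he1', he2'⟩ := ICR G H Γ N (by
      rintro x ⟨h1, h2, _⟩
      show P.ξ x.1 = P'.ξ x.2
      rw [h1, h2]) (by
      intro x hx
      have hx' : P.ξ x.1 = P'.ξ x.2 := hx
      refine ⟨?_, ?_, ?_⟩
      · show P.ξ (x.1 * x.1) = 0
        rw [P.ξ_mul, zm_self]
      · show P'.ξ (x.2 * x.2) = 0
        rw [P'.ξ_mul, zm_self]
      · exact hθ x.1 x.2 hx') (by
      rintro g ⟨h1, _, h3⟩
      refine P.θ_inj g h1 ?_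
      have h4 : P.θ g = P'.θ 1 := h3
      rw [h4, th_one]) (by
      rintro h ⟨_, h2, h3⟩
      refine P'.θ_inj h h2 ?_
      have h4 : P.θ 1 = P'.θ h := h3
      rw [← h4, th_one]) (by
      intro g
      obtain ⟨h, hh⟩ := P'.ξ_surj (P.ξ g)
      exact ⟨h, hh.symm⟩) (by
      intro h
      obtain ⟨g, hg⟩ := P.ξ_surj (P'.ξ h)
      exact ⟨g, hg⟩) hcard
  refine ⟨e, fun g => (he1' g).symm, fun g hg => ?_⟩
  obtain ⟨h, hh1, hh2⟩ := P'.θ_surj (P.θ g)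
  have h1 : e g = h := he2' (g, h) ⟨hg, hh1, hh2.symm⟩
  rw [h1, hh2]

end Pool.Agent.Q224.MI2
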